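import Mathlib
import Pool.Agent.helper55.GL.Spec

/-!
# Project gl (MP_51d945_co), module ORI
-/

set_option autoImplicit false

namespace Pool.Agent.GL

open SimpleGraph

theorem ORI_adj {n : ℕ} (B : Finset (Fin n × Fin n)) (a b : Fin n ⊕ Fin n)
    (h : (Gr (fun u v : Fin n => (u, v) ∈ B)).Adj a b) :
    (∃ x y, a = Sum.inl x ∧ b = Sum.inr y ∧ (x, y) ∈ B) ∨
      ∃ x y, b = Sum.inl x ∧ a = Sum.inr y ∧ (x, y) ∈ B := by
  rw [Gr, SimpleGraph.fromRel_adj] at h
  exact h.2

theorem ORI_aux {n : ℕ} (B : Finset (Fin n × Fin n)) {W : Type} (K : SimpleGraph W) (d : W → Bool)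
    (f : W → Fin n ⊕ Fin n) (hf : Function.Injective f)
    (hadj : ∀ a b, K.Adj a b → (Gr (fun u v : Fin n => (u, v) ∈ B)).Adj (f a) (f b))
    (hs : ∀ w, (f w).isLeft = d w) : Cp K d Set.univ B := by
  refine ⟨fun w => Sum.elim id id (f w), ?_, ?_⟩
  · intro a _ b _ hab hφ
    apply hf
    change Sum.elim id id (f a) = Sum.elim id id (f b) at hφ
    rw [← hs a, ← hs b] at hab
    revert hab hφ
    rcases f a with x | x <;> rcases f b with y | y <;> intro hab hφ
    · exact congrArg Sum.inl hφ
    · exact absurd hab (by simp)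
    · exact absurd hab (by simp)
    · exact congrArg Sum.inr hφ
  · intro a _ b _ hab ha hb
    rcases ORI_adj B _ _ (hadj a b hab) with ⟨x, y, h1, h2, h3⟩ | ⟨x, y, h1, h2, h3⟩
    · change (Sum.elim id id (f a), Sum.elim id id (f b)) ∈ B
      rw [h1, h2]
      exact h3
    · rw [← hs a, h2] at ha
      exact absurd ha (by simp)

/-- ORI. A copy of a connected graph in the host is an ordered copy for one of the two
colourings. -/
theorem ORI : ORI_stmt := by
  intro n B W K d hK hd hc
  obtain ⟨f⟩ := hc
  have hadj : ∀ a b, K.Adj a b → (Gr (fun u v : Fin n => (u, v) ∈ B)).Adj (f a) (f b) :=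
    fun a b h => f.toHom.map_adj h
  have hedge : ∀ a b, K.Adj a b → xor (f a).isLeft (d a) = xor (f b).isLeft (d b) := by
    intro a b hab
    have h1 := hd a b hab
    have h2 : (f a).isLeft ≠ (f b).isLeft := by
      rcases ORI_adj B _ _ (hadj a b hab) with ⟨x, y, h1, h2, _⟩ | ⟨x, y, h1, h2, _⟩
      · rw [h1, h2]
        simp
      · rw [h1, h2]
        simp
    revert h1 h2
    cases (f a).isLeft <;> cases (f b).isLeft <;> cases d a <;> cases d b <;> simp
  have hwalk : ∀ a b, K.Walk a b → xor (f a).isLeft (d a) = xor (f b).isLeft (d b) := by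
    intro a b w
    induction w with
    | nil => rfl
    | cons h _ ih => exact (hedge _ _ h).trans ih
  obtain ⟨w₀⟩ := hK.nonempty
  have hall : ∀ w, xor (f w).isLeft (d w) = xor (f w₀).isLeft (d w₀) := by
    intro w
    obtain ⟨p⟩ := hK.preconnected w w₀
    exact hwalk _ _ p
  rcases hx : xor (f w₀).isLeft (d w₀) with _ | _
  · left
    refine ORI_aux B K d f f.injective hadj fun w => ?_
    have h := hall w
    rw [hx] at h
    revert h
    cases (f w).isLeft <;> cases d w <;> simp
  · right
    refine ORI_aux B K (fun w => !d w) f f.injective hadj fun w => ?_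
    have h := hall w
    rw [hx] at h
    revert h
    cases (f w).isLeft <;> cases d w <;> simp

end Pool.Agent.GL
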